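import Pool.Agent.Q35.TT.Stm2

/-!
# Double covers of `(ℙ¹)ⁿ` branched along smooth divisors of multidegree (4,…,4) and their quadratic
twists: the points which are torsion in all directions, Mazur's question, statements
(project TT, helper35)
-/

set_option autoImplicit false

open Pool.Agent.Y720.MZ MvPolynomial Height AdmissibleAbsValues

namespace Pool.Agent.Q35.TT

/-! ### Twists -/

/-- The abscissas of the points of order dividing `n` on all quadratic twists, by `d`, of all curves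
with coefficients bounded by `A` are bounded by `B nᵏ v(d)`. -/
def LBT {K : Type} [Field K] (v : AbsoluteValue K ℝ) (A B : ℝ) (κ : ℕ) : Prop :=
  ∀ a b c x y d : K, v a ≤ A → v b ≤ A → v c ≤ A → dsc a b c ≠ 0 → d ≠ 0 → ∀ n : ℕ, n ≠ 0 →
    TorP (d * a) (d ^ 2 * b) (d ^ 3 * c) x y n → v x ≤ B * (n : ℝ) ^ κ * v d

/-- EXT: extension of absolute values to algebraically closed fields. -/
def S_EXT : Prop :=
  ∀ (K : Type) [Field K] (v : AbsoluteValue K ℝ), IsNonarchimedean v →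
    ∃ (Ω : Type) (_ : Field Ω) (_ : IsAlgClosed Ω) (w : AbsoluteValue Ω ℝ) (φ : K →+* Ω),
      IsNonarchimedean w ∧ ∀ x, w (φ x) = v x

/-- INF: points which are close to zero have infinite order (curves with `a = 0`). -/
def S_INF : Prop :=
  ∀ (K : Type) [Field K] [CharZero K] (v : AbsoluteValue K ℝ), IsNonarchimedean v → ∀ p : ℕ,
    p.Prime → 5 ≤ p → (∀ k : ℕ, 1 ≤ k → k < p → v (k : K) = 1) → v (p : K) < 1 →
    ∀ b c x y : K, v b ≤ 1 → v c ≤ 1 → dsc 0 b c ≠ 0 → ∀ n : ℕ, n ≠ 0 → TorP 0 b c x y n →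
      v x ^ 2 * v (p : K) ≤ 1

/-- ART: archimedean places. -/
def S_ART : Prop :=
  ∀ (K : Type) [Field K] [NumberField K] (A : ℝ), 1 ≤ A → ∃ B : ℝ, 1 ≤ B ∧
    ∀ v ∈ archAbsVal (K := K), LBT v A B 4

/-- NAT: nonarchimedean places. -/
def S_NAT : Prop :=
  ∀ (K : Type) [Field K] [CharZero K] (v : AbsoluteValue K ℝ), IsNonarchimedean v →
    (∃ p : ℕ, p.Prime ∧ v (p : K) < 1) → ∀ A : ℝ, 1 ≤ A → ∃ B : ℝ, 1 ≤ B ∧ LBT v A B 0

/-- GLT: unramified places. -/
def S_GLT : Prop :=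
  ∀ (K : Type) [Field K] [CharZero K] (v : AbsoluteValue K ℝ) (p : ℕ), Gd v p → LBT v 1 1 0

/-- The curve `w² = g(s) ∑ a_i x^i`, `g(s) = ∑ a_i s^i ≠ 0`, has genus one and `n` times the
difference of its points `(s, g(s))` and `(s, -g(s))` is zero. -/
def TorT {K : Type} [Field K] (a : Fin 5 → K) (s : K) (n : ℕ) : Prop :=
  Tor (fun k => bq a ![1, s] * a k) s (bq a ![1, s]) n

/-- TWS: the condition on other twists. -/
def S_TWS : Prop :=
  ∀ (K : Type) [Field K] [CharZero K] (a : Fin 5 → K) (e s w : K) (n : ℕ), e ≠ 0 →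
    (Tor (fun k => e * a k) s w n ↔ w ≠ 0 ∧ w ^ 2 = e * bq a ![1, s] ∧ TorT a s n)

/-- LOT: the local inequality for the partial derivatives. -/
def S_LOT : Prop :=
  ∀ (K : Type) [Field K] [CharZero K] (v : AbsoluteValue K ℝ) (A A' B : ℝ) (κ : ℕ), 1 ≤ A → 1 ≤ B →
    0 ≤ A' → 16 * A ^ 2 ≤ A' * v 3 → 137 * A ^ 3 ≤ A' * v 3 ^ 3 → v 2 ≤ 2 → v 3 ≤ 3 → LBT v A' B κ →
    ∀ (a : Fin 5 → K) (m : K), m ≠ 0 → (∀ i, v (a i) ≤ A * v m ^ 4) → ∀ (s : K) (n : ℕ), n ≠ 0 →
      TorT a s n → ∀ k, v 3 * v (bd a ![1, s] k) ^ 2 ≤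
        (144 * A + 12 * B) * (n : ℝ) ^ κ * v (bq a ![1, s]) * max 1 (v s) ^ 2 * v m ^ 4

/-- LGT: the same at a good place, without constants. -/
def S_LGT : Prop :=
  ∀ (K : Type) [Field K] [CharZero K] (v : AbsoluteValue K ℝ), IsNonarchimedean v → v 2 = 1 →
    v 3 = 1 → LBT v 1 1 0 → ∀ (a : Fin 5 → K) (m : K), m ≠ 0 → (∀ i, v (a i) ≤ v m ^ 4) →
    ∀ (s : K) (n : ℕ), n ≠ 0 → TorT a s n → ∀ k, v (bd a ![1, s] k) ^ 2 ≤
      v (bq a ![1, s]) * max 1 (v s) ^ 2 * v m ^ 4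

/-! ### Forms of multidegree (4,…,4) -/

section ring

variable {R : Type} [CommRing R] {n : ℕ}

/-- The monomial of multidegree (4,…,4) with the exponents `m` of the second coordinates, without
the variables of the block `i`. -/
def mo (m : Fin n →₀ ℕ) (x : Fin n → Fin 2 → R) (i : Fin n) : R :=
  ∏ j ∈ Finset.univ.erase i, x j 0 ^ (4 - m j) * x j 1 ^ m j

/-- The form of multidegree (4,…,4) which belongs to `f`, as a quartic form in the `i`-th pair of
variables: its coefficients at `x`. -/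
noncomputable def lc (f : MvPolynomial (Fin n) R) (x : Fin n → Fin 2 → R) (i : Fin n) (k : Fin 5) :
    R :=
  ∑ m ∈ f.support with m i = (k : ℕ), f.coeff m * mo m x i

/-- The point with the affine coordinates `z`. -/
def af (z : Fin n → R) (j : Fin n) : Fin 2 → R := ![1, z j]

/-- The squares of the products of the partial derivatives of the form with coordinates. -/
noncomputable def ZN (f : MvPolynomial (Fin n) R) (z : Fin n → R) (k : Fin n × Fin 2 × Fin 2) : R :=
  bd (lc f (af z) k.1) (af z k.1) k.2.1 ^ 2 * af z k.1 k.2.2 ^ 2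

end ring

/-- The divisor of multidegree (4,…,4) is smooth. -/
def SmoothN {K : Type} [Field K] {n : ℕ} (f : MvPolynomial (Fin n) K) : Prop :=
  ∀ x : Fin n → Fin 2 → AlgebraicClosure K, (∀ j, x j ≠ 0) →
    ∃ i k, bd (lc (map (algebraMap K (AlgebraicClosure K)) f) x i) (x i) k ≠ 0

/-- The point `z` is torsion in the direction `i`. -/
def TorN {K : Type} [Field K] {n : ℕ} (f : MvPolynomial (Fin n) K) (z : Fin n → K) (i : Fin n) :
    Prop :=
  ∃ N : ℕ, N ≠ 0 ∧ TorT (lc f (af z) i) (z i) N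

/-- GLN: the inequalities at all places of a number field. -/
def S_GLN : Prop :=
  ∀ (K : Type) [Field K] [NumberField K] (n : ℕ) (f : MvPolynomial (Fin n) K),
    (∀ j, f.degreeOf j ≤ 4) →
    ∃ C : AbsoluteValue K ℝ → ℝ, (∀ v, 1 ≤ C v) ∧
      {v : AbsoluteValue K ℝ | v ∈ nonarchAbsVal (K := K) ∧ C v ≠ 1}.Finite ∧
      ∀ (z : Fin n → K) (i : Fin n) (N : ℕ), N ≠ 0 → TorT (lc f (af z) i) (z i) N → ∀ k,
        (∀ v ∈ archAbsVal (K := K), v (bd (lc f (af z) i) (af z i) k) ^ 2 ≤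
          C v * (N : ℝ) ^ 4 * v (eval z f) * max 1 (v (z i)) ^ 2 *
            ∏ j ∈ Finset.univ.erase i, max 1 (v (z j)) ^ 4) ∧
        ∀ v ∈ nonarchAbsVal (K := K), v (bd (lc f (af z) i) (af z i) k) ^ 2 ≤
          C v * v (eval z f) * max 1 (v (z i)) ^ 2 *
            ∏ j ∈ Finset.univ.erase i, max 1 (v (z j)) ^ 4

/-- SEN: a place of good reduction with a small residue field. -/
def S_SEN : Prop :=
  ∀ (K : Type) [Field K] [NumberField K] (n : ℕ) (P : MvPolynomial (Fin n) K) (d : ℕ),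
    (∀ j, P.degreeOf j ≤ d) → ∀ (S : Finset K) (M : ℕ), ∃ C : ℝ, 0 < C ∧ ∀ z : Fin n → K,
      eval z P ≠ 0 →
      ∃ v ∈ nonarchAbsVal (K := K), ∃ p : ℕ, Gd v p ∧ (∀ s ∈ S, s ≠ 0 → v s = 1) ∧
        v (eval z P) = ∏ j, max 1 (v (z j)) ^ d ∧
        ∃ (F : Type) (_ : Fintype F) (ρ : K → F),
          (((Fintype.card F ^ 2 + 1 : ℕ) : ℝ)) ^ M ≤ C * ∏ j, mulHeight₁ (z j) ∧
          ∀ x y, v x ≤ 1 → v y ≤ 1 → ρ x = ρ y → v (x - y) < 1

/-- ORN: the order of the torsion points in the family is less than any power of the height. -/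
def S_ORN : Prop :=
  ∀ (K : Type) [Field K] [NumberField K] (n : ℕ) (f : MvPolynomial (Fin n) K),
    (∀ j, f.degreeOf j ≤ 4) → ∀ (i : Fin n) (M : ℕ), ∃ C : ℝ, 0 < C ∧
      ∀ (z : Fin n → K) (N : ℕ), N ≠ 0 → TorT (lc f (af z) i) (z i) N →
        ∃ N' : ℕ, N' ≠ 0 ∧ TorT (lc f (af z) i) (z i) N' ∧
          (N' : ℝ) ^ M ≤ C * ∏ j, mulHeight₁ (z j)

/-- PRN: the product of the local inequalities. -/
def S_PRN : Prop :=
  ∀ (K : Type) [Field K] [NumberField K] (C : AbsoluteValue K ℝ → ℝ), (∀ v, 1 ≤ C v) →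
    {v : AbsoluteValue K ℝ | v ∈ nonarchAbsVal (K := K) ∧ C v ≠ 1}.Finite →
    ∃ D : ℝ, 0 < D ∧ ∀ (ι : Type) [Finite ι] [Nonempty ι] (n : ℕ) (y : ι → K) (u : K)
      (z : Fin n → K) (a : Fin n → ℕ) (N : ℝ), y ≠ 0 → u ≠ 0 → 1 ≤ N →
      (∀ v ∈ archAbsVal (K := K), ∀ i, v (y i) ≤ C v * N * v u * ∏ j, max 1 (v (z j)) ^ a j) →
      (∀ v ∈ nonarchAbsVal (K := K), ∀ i, v (y i) ≤ C v * v u * ∏ j, max 1 (v (z j)) ^ a j) →
      mulHeight y ≤ D * N ^ totalWeight K * ∏ j, mulHeight₁ (z j) ^ a j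

/-- NSN: a lower bound for the height of the partial derivatives. -/
def S_NSN : Prop :=
  ∀ (K : Type) [Field K] [NumberField K] (n : ℕ) (f : MvPolynomial (Fin n) K),
    (∀ j, f.degreeOf j ≤ 4) → SmoothN f → ∃ D : ℝ, 0 < D ∧ ∀ z : Fin n → K, ZN f z ≠ 0 ∧
      D * (∏ j, mulHeight₁ (z j)) ^ 8 ≤ mulHeight (ZN f z)

/-- TAN: only finitely many rational points are torsion in all directions. -/
def S_TAN : Prop :=
  ∀ (K : Type) [Field K] [NumberField K] (n : ℕ) (f : MvPolynomial (Fin n) K),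
    (∀ j, f.degreeOf j ≤ 4) → SmoothN f → {z : Fin n → K | ∀ i, TorN f z i}.Finite

/-- TBN: on a line which is not special only finitely many rational points are torsion in another
direction. -/
def S_TBN : Prop :=
  ∀ (K : Type) [Field K] [NumberField K] (n : ℕ) (f : MvPolynomial (Fin n) K),
    (∀ j, f.degreeOf j ≤ 4) → ∀ (z : Fin n → K) (i j : Fin n), i ≠ j →
      ND (lc f (af z) i) (lc (pderiv j f) (af z) i) →
      {t : K | TorN f (Function.update z i t) j}.Finite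

/-! ### Moving along planes -/

/-- ACC: rational points accumulate at the points off the branch divisor of a rational curve. -/
def S_ACC : Prop :=
  ∀ (K L : Type) [Field K] [CharZero K] [NontriviallyNormedField L] (σ : K →+* L), DenseRange σ →
    ∀ (a : Fin 5 → K) (s w : K), w ≠ 0 → w ^ 2 = bq a ![1, s] →
      dc (a 0) (a 1) (a 2) (a 3) (a 4) = 0 → ∀ ε : ℝ, 0 < ε →
      ∃ s' w' : K, s' ≠ s ∧ ‖σ s' - σ s‖ < ε ∧ ‖σ w' - σ w‖ < ε ∧ w' ^ 2 = bq a ![1, s']

/-- The point `y` lies on the plane through `z` in the directions of `J`. -/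
def OnPl {K : Type} {n : ℕ} (J : Finset (Fin n)) (z y : Fin n → K) : Prop := ∀ k, k ∉ J → y k = z k

/-- The `K`-points of `w² = f` close to `(w, z)` on the plane through `z` in the directions of `J` are
Zariski dense in this plane. -/
def Full {K L : Type} [Field K] [NontriviallyNormedField L] {n : ℕ} (σ : K →+* L)
    (f : MvPolynomial (Fin n) K) (J : Finset (Fin n)) (z : Fin n → K) (w : K) : Prop :=
  ∀ ε : ℝ, 0 < ε → ∀ g : MvPolynomial (Fin n) K, (∃ y, OnPl J z y ∧ eval y g ≠ 0) →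
    ∃ (z' : Fin n → K) (w' : K), w' ^ 2 = eval z' f ∧ OnPl J z z' ∧
      (∀ k, ‖σ (z' k) - σ (z k)‖ < ε) ∧ ‖σ w' - σ w‖ < ε ∧ eval z' g ≠ 0

/-- MOV: if the point is not torsion in the direction `i` then it moves in this direction. -/
def S_MOV : Prop :=
  ∀ (K : Type) [Field K] [NumberField K] (L : Type) [NontriviallyNormedField L] [CompleteSpace L]
    (σ : K →+* L), DenseRange σ → ∀ (n : ℕ) (f : MvPolynomial (Fin n) K),
    (∀ j, f.degreeOf j ≤ 4) → ∀ (z : Fin n → K) (w : K) (i : Fin n), w ≠ 0 → w ^ 2 = eval z f →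
      ¬ TorN f z i → Full σ f {i} z w

/-- TRS: one more direction. -/
def S_TRS : Prop :=
  ∀ (K L : Type) [Field K] [NontriviallyNormedField L] (σ : K →+* L) (n : ℕ)
    (f : MvPolynomial (Fin n) K) (J : Finset (Fin n)) (k : Fin n) (z : Fin n → K) (w : K),
    (∀ ε : ℝ, 0 < ε → ∀ g : MvPolynomial (Fin n) K, (∃ y, OnPl J z y ∧ eval y g ≠ 0) →
      ∃ (z' : Fin n → K) (w' : K), w' ^ 2 = eval z' f ∧ OnPl J z z' ∧
        (∀ k, ‖σ (z' k) - σ (z k)‖ < ε) ∧ ‖σ w' - σ w‖ < ε ∧ eval z' g ≠ 0 ∧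
        Full σ f {k} z' w') → Full σ f (insert k J) z w

/-- CLO: the condition that a line is special is closed. -/
def S_CLO : Prop :=
  ∀ (K : Type) [Field K] [CharZero K] (n : ℕ) (f h : MvPolynomial (Fin n) K),
    (∀ j, f.degreeOf j ≤ 4) → (∀ j, h.degreeOf j ≤ 4) → ∀ (J : Finset (Fin n)) (z : Fin n → K)
      (i : Fin n) (D : Set (Fin n → K)),
      (∀ g : MvPolynomial (Fin n) K, (∃ y, OnPl J z y ∧ eval y g ≠ 0) →
        ∃ y ∈ D, OnPl J z y ∧ eval y g ≠ 0) →
      (∀ y ∈ D, OnPl J z y → ¬ ND (lc f (af y) i) (lc h (af y) i)) →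
      ∀ y, OnPl J z y → eval y f ≠ 0 → ¬ ND (lc f (af y) i) (lc h (af y) i)

/-- The plane through `z` in the directions of `J` is special: on it the derivatives of `f` in the
other directions are constant multiples of `f`. -/
def SpecN {K : Type} [Field K] {n : ℕ} (f : MvPolynomial (Fin n) K) (z : Fin n → K)
    (J : Finset (Fin n)) : Prop :=
  ∀ k, k ∉ J → ∃ c : K, ∀ y, OnPl J z y → eval y (pderiv k f) = c * eval y f

/-- SQF: if all lines in a plane are special for all directions which do not belong to the plane, then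
the plane is special. -/
def S_SQF : Prop :=
  ∀ (K : Type) [Field K] [CharZero K] (n : ℕ) (f : MvPolynomial (Fin n) K),
    (∀ j, f.degreeOf j ≤ 4) → SmoothN f → ∀ (J : Finset (Fin n)) (z : Fin n → K), J.Nonempty →
      eval z f ≠ 0 →
      (∀ i ∈ J, ∀ k, k ∉ J → ∀ y, OnPl J z y → eval y f ≠ 0 →
        ¬ ND (lc f (af y) i) (lc (pderiv k f) (af y) i)) → SpecN f z J

/-- NSQ: the restriction of `f` to a special plane (or to the whole space) is not a square. -/
def S_NSQ : Prop :=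
  ∀ (K : Type) [Field K] [CharZero K] (n : ℕ) (f : MvPolynomial (Fin n) K),
    (∀ j, f.degreeOf j ≤ 4) → SmoothN f → ∀ (J : Finset (Fin n)) (z : Fin n → K), J.Nonempty →
      eval z f ≠ 0 → SpecN f z J → ∀ G H : MvPolynomial (Fin n) K,
      (∀ y, OnPl J z y → eval y G ^ 2 = eval y f * eval y H ^ 2) →
      ∀ y, OnPl J z y → eval y G = 0 ∧ eval y H = 0

/-- There are only finitely many special planes (through `K`-points off the branch divisor). -/
def FinSpec {K : Type} [Field K] {n : ℕ} (f : MvPolynomial (Fin n) K) : Prop :=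
  ∀ J : Finset (Fin n), J.Nonempty → J ≠ Finset.univ →
    {P : Set (Fin n → K) | ∃ z, eval z f ≠ 0 ∧ SpecN f z J ∧ P = {y | OnPl J z y}}.Finite

/-- CLA: the rational points which are not torsion in all directions move in a special plane, or in
the whole space. -/
def S_CLA : Prop :=
  ∀ (K : Type) [Field K] [NumberField K] (L : Type) [NontriviallyNormedField L] [CompleteSpace L]
    (σ : K →+* L), DenseRange σ → ∀ (n : ℕ) (f : MvPolynomial (Fin n) K),
    (∀ j, f.degreeOf j ≤ 4) → SmoothN f → FinSpec f → ∀ (z : Fin n → K) (w : K), w ≠ 0 →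
      w ^ 2 = eval z f → (∃ i, ¬ TorN f z i) →
      ∃ J : Finset (Fin n), J.Nonempty ∧ Full σ f J z w ∧ SpecN f z J

/-- The polynomials in the coordinates (`none` is `w`) which vanish at the `K`-points of `w² = f`
close to the point `(w, x)`. -/
def locN {K L : Type} [Field K] [NontriviallyNormedField L] {n : ℕ} (σ : K →+* L)
    (f : MvPolynomial (Fin n) K) (w : L) (x : Fin n → L) :
    Set (MvPolynomial (Option (Fin n)) K) :=
  {g | ∃ U ∈ nhds (w, x), ∀ (W : K) (z : Fin n → K), W ^ 2 = eval z f →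
    (σ W, fun i => σ (z i)) ∈ U → eval (fun o => o.elim W z) g = 0}

/-- MZN: Mazur's question for double covers of `(ℙ¹)ⁿ` with finitely many special planes. -/
def S_MZN : Prop :=
  ∀ (K : Type) [Field K] [NumberField K] (n : ℕ) (f : MvPolynomial (Fin n) K),
    (∀ j, f.degreeOf j ≤ 4) → SmoothN f → FinSpec f →
    ∀ (L : Type) [NontriviallyNormedField L] [CompleteSpace L] (σ : K →+* L), DenseRange σ →
      -- (1) the local closures at the rational points
      (∀ (W : K) (z : Fin n → K), W ≠ 0 → W ^ 2 = eval z f → (∃ i, ¬ TorN f z i) →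
        (∀ J : Finset (Fin n), J.Nonempty → J ≠ Finset.univ → ¬ SpecN f z J) →
        ∀ g ∈ locN σ f (σ W) (fun i => σ (z i)), ∀ (W' : K) (z' : Fin n → K),
          W' ^ 2 = eval z' f → eval (fun o => o.elim W' z') g = 0) ∧
      -- (2) off the branch divisor
      {J | ∃ (w : L) (x : Fin n → L), w ≠ 0 ∧ w ^ 2 = eval₂ σ x f ∧ J = locN σ f w x}.Finite ∧
      -- (3) reduction to the branch divisor
      ({J : Set (MvPolynomial (Fin n) K) | ∃ x : Fin n → L, eval₂ σ x f = 0 ∧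
          J = {g | ∃ U ∈ nhds x, ∀ z : Fin n → K, eval z f = 0 → (fun i => σ (z i)) ∈ U →
            eval z g = 0}}.Finite →
        {J | ∃ (w : L) (x : Fin n → L), w ^ 2 = eval₂ σ x f ∧ J = locN σ f w x}.Finite)

/-- FS2: for surfaces there are only finitely many special lines. -/
def S_FS2 : Prop :=
  ∀ (K : Type) [Field K] [CharZero K] (f : MvPolynomial (Fin 2) K),
    (∀ j, f.degreeOf j ≤ 4) → SmoothN f → FinSpec f

/-- INV: the conditions do not change under quadratic twists. -/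
def S_INV : Prop :=
  ∀ (K : Type) [Field K] [CharZero K] (n : ℕ) (f : MvPolynomial (Fin n) K),
    (∀ j, f.degreeOf j ≤ 4) → ∀ e : K, e ≠ 0 →
      (∀ j, (C e * f).degreeOf j ≤ 4) ∧ (SmoothN f → SmoothN (C e * f)) ∧
      (FinSpec f → FinSpec (C e * f)) ∧
      ∀ z : Fin n → K, (∀ i, TorN (C e * f) z i ↔ TorN f z i) ∧
        ∀ J, SpecN (C e * f) z J ↔ SpecN f z J

end Pool.Agent.Q35.TT
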