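import Pool.Agent.Q79.TT.Glt
import Pool.Agent.Q35.TT.Stm3

/-!
# Project TT, jobs NAT and ART: the twisted local bounds (helper35)
-/

set_option autoImplicit false

open Pool.Agent.Y720.MZ Height AdmissibleAbsValues Pool.Agent.Q79.TT

namespace Pool.Agent.Q35.TT

/-- The bound for twists follows from the bound for an algebraically closed extension. -/
theorem lbt_of {K Ω : Type} [Field K] [CharZero K] [Field Ω] [IsAlgClosed Ω] (φ : K →+* Ω)
    (v : AbsoluteValue K ℝ) (w : AbsoluteValue Ω ℝ) (hw : ∀ x, w (φ x) = v x) (h3 : S_TRN)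
    {A B : ℝ} {κ : ℕ} (hB : LB w A B κ) : LBT v A B κ := by
  intro a b c x y d ha hb hc hd hd0 n hn ht
  have _ : CharZero Ω := charZero_of_injective_ringHom φ.injective
  have t2 := torP_map φ ht
  obtain ⟨u, hu⟩ := IsAlgClosed.exists_pow_nat_eq (φ d) (n := 2) (by norm_num)
  have hφd : φ d ≠ 0 := (map_ne_zero φ).2 hd0
  have hu0 : u ≠ 0 := by
    rintro rfl
    rw [zero_pow (by norm_num)] at hu
    exact hφd hu.symm
  rw [map_mul, map_mul, map_mul, map_pow, map_pow] at t2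
  have hdw : dsc (φ d * φ a) (φ d ^ 2 * φ b) (φ d ^ 3 * φ c) ≠ 0 := by
    have e : dsc (φ d * φ a) (φ d ^ 2 * φ b) (φ d ^ 3 * φ c) = φ (d ^ 6 * dsc a b c) := by
      simp only [dsc, map_mul, map_pow, map_sub, map_add, map_ofNat]; ring
    rw [e]
    intro h
    exact mul_ne_zero (pow_ne_zero _ hd0) hd (φ.injective (by rw [h, map_zero]))
  have t3 := h3 Ω _ _ _ _ _ u 0 n hu0 hdw t2
  have f1 : (φ d * φ a + 3 * 0) / u ^ 2 = φ a := by
    rw [← hu]; field_simp; ring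
  have f2 : (φ d ^ 2 * φ b + 2 * 0 * (φ d * φ a) + 3 * 0 ^ 2) / u ^ 4 = φ b := by
    rw [← hu]; field_simp; ring
  have f3 : (φ d ^ 3 * φ c + 0 * (φ d ^ 2 * φ b) + 0 ^ 2 * (φ d * φ a) + 0 ^ 3) / u ^ 6 = φ c := by
    rw [← hu]; field_simp; ring
  rw [f1, f2, f3, hu, sub_zero] at t3
  have hdw' : dsc (φ a) (φ b) (φ c) ≠ 0 := by
    have e : dsc (φ a) (φ b) (φ c) = φ (dsc a b c) := by
      simp only [dsc, map_mul, map_pow, map_sub, map_add, map_ofNat]
    rw [e]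
    exact (map_ne_zero φ).2 hd
  have t4 := hB (φ a) (φ b) (φ c) _ _ (by rw [hw]; exact ha) (by rw [hw]; exact hb)
    (by rw [hw]; exact hc) hdw' n hn t3
  rw [map_div₀, hw, hw] at t4
  exact (div_le_iff₀ (v.pos hd0)).1 t4

/-- NAT. -/
theorem nat_ (h1 : S_EXT) (h2 : S_NAR) (h3 : S_TRN) : S_NAT := by
  intro K _ _ v hv hp A hA
  obtain ⟨Ω, iF, iA, w, φ, hw, hwφ⟩ := h1 K v hv
  have _ : CharZero Ω := charZero_of_injective_ringHom φ.injective
  obtain ⟨p, hp, hvp⟩ := hp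
  obtain ⟨B, hB1, hB⟩ := h2 Ω w hw ⟨p, hp, by rw [← map_natCast φ, hwφ]; exact hvp⟩ A hA
  exact ⟨B, hB1, lbt_of φ v w hwφ h3 hB⟩

/-- ART. -/
theorem art_ (h2 : S_ARC) (h3 : S_TRN) : S_ART := by
  intro K _ _ A hA
  obtain ⟨B, hB1, hB⟩ := h2 A hA
  refine ⟨B, hB1, fun v hv => ?_⟩
  have hv' : v ∈ NumberField.multisetInfinitePlace K := hv
  rw [NumberField.mem_multisetInfinitePlace] at hv'
  obtain ⟨p, rfl⟩ := (NumberField.isInfinitePlace_iff v).1 hv'
  have h5 := hB ℂ (NormedField.toAbsoluteValue ℂ) (fun n => Complex.norm_natCast n)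
  refine lbt_of p.embedding p.1 _ (fun x => ?_) h3 h5
  exact p.norm_embedding_eq x

end Pool.Agent.Q35.TT
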