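import Pool.Agent.Q35.TT.Stm3

/-!
# Double covers of `(ℙ¹)ⁿ` branched along smooth divisors of multidegree (4,…,4) and their quadratic
twists: the projective statements (project TT, helper35)
-/

set_option autoImplicit false

open Pool.Agent.Y720.MZ MvPolynomial Height AdmissibleAbsValues

namespace Pool.Agent.Q35.TT

/-- MZM: Mazur's question for double covers of `(ℙ¹)ⁿ` with finitely many special planes, affine
charts (as `S_MZN`, with a stronger conclusion in (1)). -/
def S_MZM : Prop :=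
  ∀ (K : Type) [Field K] [NumberField K] (n : ℕ) (f : MvPolynomial (Fin n) K),
    (∀ j, f.degreeOf j ≤ 4) → SmoothN f → FinSpec f →
    ∀ (L : Type) [NontriviallyNormedField L] [CompleteSpace L] (σ : K →+* L), DenseRange σ →
      -- (1) the local closures at the rational points
      (∀ (W : K) (z : Fin n → K), W ≠ 0 → W ^ 2 = eval z f → (∃ i, ¬ TorN f z i) →
        (∀ J : Finset (Fin n), J.Nonempty → J ≠ Finset.univ → ¬ SpecN f z J) →
        ∀ g ∈ locN σ f (σ W) (fun i => σ (z i)), (X none ^ 2 - rename some f) ∣ g) ∧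
      -- (2) off the branch divisor
      {J | ∃ (w : L) (x : Fin n → L), w ≠ 0 ∧ w ^ 2 = eval₂ σ x f ∧ J = locN σ f w x}.Finite ∧
      -- (3) reduction to the branch divisor
      ({J : Set (MvPolynomial (Fin n) K) | ∃ x : Fin n → L, eval₂ σ x f = 0 ∧
          J = {g | ∃ U ∈ nhds x, ∀ z : Fin n → K, eval z f = 0 → (fun i => σ (z i)) ∈ U →
            eval z g = 0}}.Finite →
        {J | ∃ (w : L) (x : Fin n → L), w ^ 2 = eval₂ σ x f ∧ J = locN σ f w x}.Finite)

/-! ### Multihomogeneous forms -/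

section forms

variable {K : Type} [Field K] {n : ℕ}

/-- `F` is a form of degree `4` in each pair of variables `(j, 0)`, `(j, 1)`. -/
def Hom4 (F : MvPolynomial (Fin n × Fin 2) K) : Prop :=
  ∀ m ∈ F.support, ∀ j, m (j, 0) + m (j, 1) = 4

/-- The divisor `F = 0` in `(ℙ¹)ⁿ` is smooth. -/
def SmoothF (F : MvPolynomial (Fin n × Fin 2) K) : Prop :=
  ∀ x : Fin n × Fin 2 → AlgebraicClosure K, (∀ j, ∃ b, x (j, b) ≠ 0) → ∃ p, aeval x (pderiv p F) ≠ 0

/-- `Y` has the same coordinates as `X` in the directions which do not belong to `J`. -/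
def OnPF (J : Finset (Fin n)) (X Y : Fin n × Fin 2 → K) : Prop :=
  ∀ j, j ∉ J → ∀ b, Y (j, b) = X (j, b)

/-- The plane through `X` in the directions of `J` is special: on it the derivatives of `F` in the
other directions are constant multiples of `F`. -/
def SpecF (F : MvPolynomial (Fin n × Fin 2) K) (X : Fin n × Fin 2 → K) (J : Finset (Fin n)) : Prop :=
  ∀ k, k ∉ J → ∀ b, ∃ c : K, ∀ Y, OnPF J X Y → eval Y (pderiv (k, b) F) = c * eval Y F

/-- There are only finitely many special planes (through `K`-points off the branch divisor). -/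
def FinSpecF (F : MvPolynomial (Fin n × Fin 2) K) : Prop :=
  ∀ J : Finset (Fin n), J.Nonempty → J ≠ Finset.univ →
    {P : Set (Fin n × Fin 2 → K) | ∃ X, eval X F ≠ 0 ∧ SpecF F X J ∧
      P = {Y | ∀ j, j ∉ J → ∃ a : K, a ≠ 0 ∧ ∀ b, Y (j, b) = a * X (j, b)}}.Finite

/-- The affine chart in which the coordinates `(j, ε j)` are `1`. -/
noncomputable def ch (F : MvPolynomial (Fin n × Fin 2) K) (ε : Fin n → Fin 2) :
    MvPolynomial (Fin n) K :=
  aeval (fun p : Fin n × Fin 2 => if p.2 = ε p.1 then 1 else X p.1) F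

/-- The coordinate vector of the point of this chart with the affine coordinates `z`. -/
def pt {R : Type} [One R] (ε : Fin n → Fin 2) (z : Fin n → R) (p : Fin n × Fin 2) : R :=
  if p.2 = ε p.1 then 1 else z p.1

end forms

/-- CHF: the affine charts. -/
def S_CHF : Prop :=
  ∀ (K : Type) [Field K] [CharZero K] (n : ℕ) (F : MvPolynomial (Fin n × Fin 2) K), Hom4 F →
    ∀ ε : Fin n → Fin 2,
      (∀ j, (ch F ε).degreeOf j ≤ 4) ∧ (SmoothF F → SmoothN (ch F ε)) ∧
      (∀ z : Fin n → K, eval z (ch F ε) = eval (pt ε z) F) ∧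
      (∀ (z : Fin n → K) (J : Finset (Fin n)), SpecN (ch F ε) z J ↔ SpecF F (pt ε z) J) ∧
      (FinSpecF F → FinSpec (ch F ε)) ∧
      -- change of coordinates
      (∀ (X : Fin n × Fin 2 → K) (a : Fin n → K), eval (fun p => a p.1 * X p) F =
        (∏ j, a j) ^ 4 * eval X F) ∧
      ∀ (X : Fin n × Fin 2 → K) (a : Fin n → K) (J : Finset (Fin n)), (∀ j, a j ≠ 0) →
        (SpecF F (fun p => a p.1 * X p) J ↔ SpecF F X J)

/-- FSF: for surfaces there are only finitely many special lines. -/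
def S_FSF : Prop :=
  ∀ (K : Type) [Field K] [CharZero K] (F : MvPolynomial (Fin 2 × Fin 2) K), Hom4 F → SmoothF F →
    FinSpecF F

section loc

variable {K L : Type} [Field K] [NontriviallyNormedField L] {n : ℕ}

/-- The polynomials in the coordinates (`none` is `w`) which vanish at all coordinate vectors of the
`K`-points of `w² = F` close to the point `(w, x)`. -/
def locF (σ : K →+* L) (F : MvPolynomial (Fin n × Fin 2) K) (w : L) (x : Fin n × Fin 2 → L) :
    Set (MvPolynomial (Option (Fin n × Fin 2)) K) :=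
  {g | ∃ U ∈ nhds (w, x), ∀ (W : K) (X : Fin n × Fin 2 → K), (∀ j, ∃ b, X (j, b) ≠ 0) →
    W ^ 2 = eval X F → (∃ a : Fin n → L, (∀ j, a j ≠ 0) ∧
      ((∏ j, a j) ^ 2 * σ W, fun p => a p.1 * σ (X p)) ∈ U) →
    ∀ a : Fin n → K, eval (fun o => o.elim ((∏ j, a j) ^ 2 * W) fun p => a p.1 * X p) g = 0}

/-- The polynomials which vanish at all coordinate vectors of the `K`-points of `F = 0` close to the
point `x`. -/
def locB (σ : K →+* L) (F : MvPolynomial (Fin n × Fin 2) K) (x : Fin n × Fin 2 → L) :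
    Set (MvPolynomial (Fin n × Fin 2) K) :=
  {g | ∃ U ∈ nhds x, ∀ X : Fin n × Fin 2 → K, (∀ j, ∃ b, X (j, b) ≠ 0) → eval X F = 0 →
    (∃ a : Fin n → L, (∀ j, a j ≠ 0) ∧ (fun p => a p.1 * σ (X p)) ∈ U) →
    ∀ a : Fin n → K, eval (fun p => a p.1 * X p) g = 0}

end loc

/-- MZF: Mazur's question for the projective varieties and all their quadratic twists. -/
def S_MZF : Prop :=
  ∀ (K : Type) [Field K] [NumberField K] (n : ℕ) (F : MvPolynomial (Fin n × Fin 2) K), Hom4 F →
    SmoothF F → FinSpecF F → ∃ T : Set (Fin n × Fin 2 → K), T.Finite ∧ ∀ e : K, e ≠ 0 →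
    ∀ (L : Type) [NontriviallyNormedField L] [CompleteSpace L] (σ : K →+* L), DenseRange σ →
      -- (1) the local closures at the rational points
      (∀ (W : K) (X : Fin n × Fin 2 → K), W ≠ 0 → W ^ 2 = eval X (C e * F) →
        (∀ t ∈ T, ∀ a : Fin n → K, X ≠ fun p => a p.1 * t p) →
        (∀ J : Finset (Fin n), J.Nonempty → J ≠ Finset.univ → ¬ SpecF F X J) →
        ∀ g ∈ locF σ (C e * F) (σ W) (fun p => σ (X p)),
          (MvPolynomial.X none ^ 2 - rename some (C e * F)) ∣ g) ∧
      -- (2) off the branch divisor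
      {J | ∃ (w : L) (x : Fin n × Fin 2 → L), w ≠ 0 ∧ w ^ 2 = eval₂ σ x (C e * F) ∧
        J = locF σ (C e * F) w x}.Finite ∧
      -- (3) reduction to the branch divisor
      ({J | ∃ x : Fin n × Fin 2 → L, (∀ j, ∃ b, x (j, b) ≠ 0) ∧ eval₂ σ x F = 0 ∧
          J = locB σ F x}.Finite →
        {J | ∃ (w : L) (x : Fin n × Fin 2 → L), (∀ j, ∃ b, x (j, b) ≠ 0) ∧
          w ^ 2 = eval₂ σ x (C e * F) ∧ J = locF σ (C e * F) w x}.Finite)

end Pool.Agent.Q35.TT
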