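import Pool.Agent.Q224.TT.Mzn
import Pool.Agent.Q35.TT.Stm4

/-!
# Project TT: the stronger form of the first part of MZN (helper35; the proof of MZN is by helper224)
-/

set_option autoImplicit false

open MvPolynomial

namespace Pool.Agent.Q35.TT

open Pool.Agent.Q224.TT

/-- `g = A + w B` modulo `w² - f` -/
theorem decomp_eq {K : Type} [Field K] {n : ℕ} (f : MvPolynomial (Fin n) K)
    (g : MvPolynomial (Option (Fin n)) K) :
    ∃ (A B : MvPolynomial (Fin n) K) (Q : MvPolynomial (Option (Fin n)) K),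
      g = rename some A + X none * rename some B + (X none ^ 2 - rename some f) * Q := by
  induction g using MvPolynomial.induction_on with
  | C a => exact ⟨C a, 0, 0, by simp⟩
  | add p q hp hq =>
    obtain ⟨A, B, Q, h⟩ := hp
    obtain ⟨A', B', Q', h'⟩ := hq
    refine ⟨A + A', B + B', Q + Q', ?_⟩
    rw [h, h', map_add, map_add]
    ring
  | mul_X p o hp =>
    obtain ⟨A, B, Q, h⟩ := hp
    cases o with
    | none =>
      refine ⟨B * f, A, B.rename some + Q * X none, ?_⟩
      rw [h, map_mul]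
      ring
    | some i =>
      refine ⟨A * X i, B * X i, Q * X (some i), ?_⟩
      rw [h, map_mul, map_mul, rename_X]
      ring

theorem eval_opt {K : Type} [Field K] {n : ℕ} (A : MvPolynomial (Fin n) K) (W : K) (z : Fin n → K) :
    eval (fun o => o.elim W z) (rename some A) = eval z A := by
  rw [eval_rename]
  rfl

theorem mzm (h1 : S_TAN) (h2 : S_CLA) (h3 : S_NSQ) : S_MZM := by
  intro K _ _ n f hf hsm hfin L _ _ σ hσ
  obtain ⟨-, m2, m3⟩ := mzn h1 h2 h3 K n f hf hsm hfin L σ hσ
  refine ⟨?_, m2, m3⟩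
  intro W z hW hWz hnt hnospec g hg
  have : Infinite K := CharZero.infinite K
  have hz : eval z f ≠ 0 := by
    rw [← hWz]
    exact pow_ne_zero 2 hW
  obtain ⟨J, hJ, hfull, hspec⟩ := h2 K L σ hσ n f hf hsm hfin z W hW hWz hnt
  have hJu : J = Finset.univ := by
    by_contra hne
    exact hnospec J hJ hne hspec
  have hon : ∀ y : Fin n → K, OnPl J z y := by
    intro y k hk
    exact absurd (by rw [hJu]; exact Finset.mem_univ k) hk
  obtain ⟨U, hU, hg⟩ := hg
  obtain ⟨A, B, Q, hAB⟩ := decomp_eq f g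
  have hval : ∀ (w1 : K) (z1 : Fin n → K), w1 ^ 2 = eval z1 f →
      eval (fun o => o.elim w1 z1) g = eval z1 A + w1 * eval z1 B := by
    intro w1 z1 k1
    rw [hAB, map_add, map_add, map_mul, map_mul, map_sub, map_pow, eval_X, eval_opt, eval_opt, eval_opt,
      ← k1]
    simp only [Option.elim_none]
    ring
  obtain ⟨ε, hε, hball⟩ := Metric.mem_nhds_iff.1 hU
  have hAB0 : ∀ y, OnPl J z y → eval y A ^ 2 = eval y f * eval y B ^ 2 := by
    intro y hy
    by_contra hne
    obtain ⟨z1, w1, k1, k2, k3, k4, k5⟩ := hfull ε hε (A ^ 2 - f * B ^ 2) ⟨y, hy, by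
      rw [map_sub, map_mul, map_pow, map_pow, sub_ne_zero]
      exact hne⟩
    apply k5
    have hin : (σ w1, fun i => σ (z1 i)) ∈ U := by
      apply hball
      rw [Metric.mem_ball, Prod.dist_eq, max_lt_iff]
      constructor
      · rw [dist_eq_norm]
        exact k4
      · rw [dist_pi_lt_iff hε]
        intro i
        rw [dist_eq_norm]
        exact k3 i
    have h5 := hg w1 z1 k1 hin
    rw [hval w1 z1 k1] at h5
    rw [map_sub, map_mul, map_pow, map_pow, ← k1]
    have h6 : eval z1 A = - (w1 * eval z1 B) := eq_neg_of_add_eq_zero_left h5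
    rw [h6]
    ring
  have hall := h3 K n f hf hsm J z hJ hz hspec A B hAB0
  have hA : A = 0 := MvPolynomial.funext fun y => by rw [(hall y (hon y)).1, map_zero]
  have hB : B = 0 := MvPolynomial.funext fun y => by rw [(hall y (hon y)).2, map_zero]
  refine ⟨Q, ?_⟩
  rw [hAB, hA, hB, map_zero]
  ring

end Pool.Agent.Q35.TT
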