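import Pool.Agent.Q35.TT.Two
import Pool.Agent.Q35.TT.TwistB
import Pool.Agent.Q68.TT.Ext
import Pool.Agent.Q53.TT.ORN
import Pool.Agent.Q137.TT.Inf
import Pool.Agent.Q190.TT.Gln
import Pool.Agent.Q190.TT.Tws
import Pool.Agent.Q190.TT.Lot
import Pool.Agent.Q192.TT.Nsn
import Pool.Agent.Q192.TT.Sen
import Pool.Agent.Q192.TT.Mov
import Pool.Agent.Q192.TT.Acc
import Pool.Agent.Q182.TT.Chf
import Pool.Agent.Q65.TT.Trs
import Pool.Agent.Q68.TT.Mzf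
import Pool.Agent.Q35.TT.Mzm
import Pool.Agent.Q222.TT.Opn
import Pool.Agent.Q153.TT.ProdN
import Pool.Agent.Q26.TT.TAN
import Pool.Agent.Q26.TT.TBN
import Pool.Agent.Q238.TT.Clo
import Pool.Agent.Q224.TT.Cla
import Pool.Agent.Q224.TT.Sqf
import Pool.Agent.Q224.TT.Nsq
import Pool.Agent.Q285.TT.FSF
import Pool.Agent.Q121.TT.Fs2

/-!
# Project TT: the theorems in all dimensions, assembled (helper35)
-/

set_option autoImplicit false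

namespace Pool.Agent.Q35.TT

open Pool.Agent.Q121.TT (trn)

theorem gln2 : S_GLN :=
  Pool.Agent.Q190.TT.Gln.gln (art_ Pool.Agent.Q53.TT.ARC.arc trn)
    (nat_ Pool.Agent.Q68.TT.Ext.ext (Pool.Agent.Q53.TT.NAR.nar trn) trn)
    (Pool.Agent.Q79.TT.glt Pool.Agent.Q68.TT.Ext.ext Pool.Agent.Q137.TT.inf_ trn)
    Pool.Agent.Q193.TT.pla (Pool.Agent.Q190.TT.Lot.lot trn) (Pool.Agent.Q190.TT.Lot.lgt trn)

theorem sen2 : S_SEN := Pool.Agent.Q192.TT.sen (Pool.Agent.Q137.TT.plc Pool.Agent.Q193.TT.pla)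

theorem tws2 : S_TWS := Pool.Agent.Q190.TT.tws trn

theorem mov2 : S_MOV := Pool.Agent.Q192.TT.mov tws2 Pool.Agent.Q192.TT.acc

theorem tan_of (h : S_ORN) : S_TAN :=
  Pool.Agent.Q26.TT.tan_ gln2 h Pool.Agent.Q153.TT.prn Pool.Agent.Q192.TT.nsn

theorem tbn_of (h : S_ORN) : S_TBN :=
  Pool.Agent.Q26.TT.tbn gln2 h Pool.Agent.Q153.TT.prn Pool.Agent.Q164.TT.bht

theorem cla_of (h : S_ORN) : S_CLA :=
  Pool.Agent.Q224.TT.cla (tan_of h) (tbn_of h) mov2 Pool.Agent.Q65.TT.trs Pool.Agent.Q238.TT.clo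
    Pool.Agent.Q224.TT.sqf

theorem mzm_of (h : S_ORN) : S_MZM := mzm (tan_of h) (cla_of h) Pool.Agent.Q224.TT.nsq

theorem mzf_of (h : S_ORN) : S_MZF :=
  Pool.Agent.Q68.TT.Mzf.mzf (tan_of h) (Pool.Agent.Q190.TT.inv tws2) (mzm_of h)
    Pool.Agent.Q182.TT.CHF.chf

theorem opn_of (h : S_ORN) : S_OPN :=
  Pool.Agent.Q222.TT.Opn.opn (tan_of h) tws2 Pool.Agent.Q149.TT.spe

theorem fsf2 : S_FSF :=
  Pool.Agent.Q285.TT.fsf (Pool.Agent.Q121.TT.fs2 Pool.Agent.Q149.TT.spe) Pool.Agent.Q182.TT.CHF.chf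

theorem orn2 : S_ORN :=
  Pool.Agent.Q53.TT.ORN.orn trn
    (Pool.Agent.Q79.TT.glt Pool.Agent.Q68.TT.Ext.ext Pool.Agent.Q137.TT.inf_ trn) sen2

theorem tan2 : S_TAN := tan_of orn2

theorem mzf2 : S_MZF := mzf_of orn2

theorem opn2 : S_OPN := opn_of orn2

end Pool.Agent.Q35.TT
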