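import Pool.Agent.Y720.MZ.Tw
import Pool.Agent.Y718.MVX
import Mathlib.NumberTheory.Height.NumberField

/-!
# Double covers `w² = F(x, y)` of `ℙ¹ × ℙ¹`, branched along smooth curves of bidegree (4,4):
the points which are torsion in both fibrations, statements (project TT, helper35)
-/

set_option autoImplicit false

open Pool.Agent.Y720.MZ Height AdmissibleAbsValues

namespace Pool.Agent.Q35.TT

/-! ### Elliptic curves `y² = x³ + a x² + b x + c` -/

/-- `n` times the point `(x, y)` is zero. -/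
def TorP {K : Type} [Field K] (a b c x y : K) (n : ℕ) : Prop :=
  letI : DecidableEq K := Classical.decEq K
  ∃ h, n • (.some x y h : Pt a b c) = 0

/-- The abscissas of the points of order dividing `n` on all curves with coefficients bounded by `A`
are bounded by `B nᵏ`, for the absolute value `v`. -/
def LB {K : Type} [Field K] (v : AbsoluteValue K ℝ) (A B : ℝ) (κ : ℕ) : Prop :=
  ∀ a b c x y : K, v a ≤ A → v b ≤ A → v c ≤ A → dsc a b c ≠ 0 → ∀ n : ℕ, n ≠ 0 →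
    TorP a b c x y n → v x ≤ B * (n : ℝ) ^ κ

/-- TRN: translation and scaling. -/
def S_TRN : Prop :=
  ∀ (K : Type) [Field K] [CharZero K] (a b c x y u r : K) (n : ℕ), u ≠ 0 → dsc a b c ≠ 0 →
    TorP a b c x y n →
    TorP ((a + 3 * r) / u ^ 2) ((b + 2 * r * a + 3 * r ^ 2) / u ^ 4)
      ((c + r * b + r ^ 2 * a + r ^ 3) / u ^ 6) ((x - r) / u ^ 2) (y / u ^ 3) n

/-- ARC: archimedean places. -/
def S_ARC : Prop :=
  ∀ A : ℝ, 1 ≤ A → ∃ B : ℝ, 1 ≤ B ∧ ∀ (K : Type) [Field K] [CharZero K] (v : AbsoluteValue K ℝ),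
    (∀ n : ℕ, v (n : K) = n) → LB v A B 4

/-- NAR: nonarchimedean places. -/
def S_NAR : Prop :=
  ∀ (K : Type) [Field K] [CharZero K] (v : AbsoluteValue K ℝ), IsNonarchimedean v →
    (∃ p : ℕ, p.Prime ∧ v (p : K) < 1) → ∀ A : ℝ, 1 ≤ A → ∃ B : ℝ, 1 ≤ B ∧ LB v A B 0

/-- An unramified place over the prime number `p ≥ 5`. -/
structure Gd {K : Type} [Field K] (v : AbsoluteValue K ℝ) (p : ℕ) : Prop where
  prime : p.Prime
  p5 : 5 ≤ p
  na : IsNonarchimedean v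
  unit : ∀ k : ℕ, 1 ≤ k → k < p → v (k : K) = 1
  lt : v (p : K) < 1
  un : ∀ u : K, 1 < v u → 1 < v u ^ 2 * v (p : K)

/-- GLB: unramified places. -/
def S_GLB : Prop :=
  ∀ (K : Type) [Field K] [CharZero K] (v : AbsoluteValue K ℝ) (p : ℕ), Gd v p → LB v 1 1 0

/-! ### Places of number fields -/

/-- PLA: the places of a number field. -/
def S_PLA : Prop :=
  ∀ (K : Type) [Field K] [NumberField K],
    (∀ v ∈ archAbsVal (K := K), ∀ n : ℕ, v (n : K) = n) ∧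
    (∀ v ∈ nonarchAbsVal (K := K), ∃ p : ℕ, p.Prime ∧ v (p : K) < 1) ∧
    {v : AbsoluteValue K ℝ | v ∈ nonarchAbsVal (K := K) ∧ ¬ ∃ p, Gd v p}.Finite

/-- PLC: places over all large prime numbers, with small residue fields, at which the nonzero
elements of a given finite set are units. -/
def S_PLC : Prop :=
  ∀ (K : Type) [Field K] [NumberField K] (S : Finset K), ∃ p₀ : ℕ, ∀ p : ℕ, p.Prime → p₀ < p →
    ∃ v ∈ nonarchAbsVal (K := K), Gd v p ∧ (∀ s ∈ S, s ≠ 0 → v s = 1) ∧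
      (∀ u : K, v u < 1 → v u * p ≤ 1) ∧
      ∃ (F : Type) (_ : Fintype F) (ρ : K → F), Fintype.card F ≤ p ^ Module.finrank ℚ K ∧
        ∀ x y, v x ≤ 1 → v y ≤ 1 → ρ x = ρ y → v (x - y) < 1

/-- SEL: a place of good reduction with a small residue field. -/
def S_SEL : Prop :=
  ∀ (K : Type) [Field K] [NumberField K] (P : Polynomial K) (d : ℕ), P.natDegree ≤ d →
    ∀ (S : Finset K) (M : ℕ), ∃ C : ℝ, 0 < C ∧ ∀ t : K, P.eval t ≠ 0 →
      ∃ v ∈ nonarchAbsVal (K := K), ∃ p : ℕ, Gd v p ∧ (∀ s ∈ S, s ≠ 0 → v s = 1) ∧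
        v (P.eval t) = max 1 (v t) ^ d ∧
        ∃ (F : Type) (_ : Fintype F) (ρ : K → F),
          (((Fintype.card F ^ 2 + 1 : ℕ) : ℝ)) ^ M ≤ C * mulHeight₁ t ∧
          ∀ x y, v x ≤ 1 → v y ≤ 1 → ρ x = ρ y → v (x - y) < 1

/-! ### Binary quartic forms and forms of bidegree (4,4) -/

section ring

variable {R : Type} [CommRing R]

/-- The binary quartic form with the coefficients `a`. -/
def bq (a : Fin 5 → R) (x : Fin 2 → R) : R :=
  a 0 * x 0 ^ 4 + a 1 * (x 0 ^ 3 * x 1) + a 2 * (x 0 ^ 2 * x 1 ^ 2) + a 3 * (x 0 * x 1 ^ 3) +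
    a 4 * x 1 ^ 4

/-- Its partial derivatives. -/
def bd (a : Fin 5 → R) (x : Fin 2 → R) (k : Fin 2) : R :=
  ![4 * a 0 * x 0 ^ 3 + 3 * a 1 * (x 0 ^ 2 * x 1) + 2 * a 2 * (x 0 * x 1 ^ 2) + a 3 * x 1 ^ 3,
    a 1 * x 0 ^ 3 + 2 * a 2 * (x 0 ^ 2 * x 1) + 3 * a 3 * (x 0 * x 1 ^ 2) + 4 * a 4 * x 1 ^ 3] k

/-- The form of bidegree (4,4) with the coefficients `c`, as a quartic form in `x`. -/
def cx (c : Fin 5 → Fin 5 → R) (y : Fin 2 → R) : Fin 5 → R := fun i => bq (c i) y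

/-- The same form as a quartic form in `y`. -/
def cy (c : Fin 5 → Fin 5 → R) (x : Fin 2 → R) : Fin 5 → R := fun j => bq (fun i => c i j) x

/-- The form of bidegree (4,4). -/
def F4 (c : Fin 5 → Fin 5 → R) (x y : Fin 2 → R) : R := bq (cx c y) x

/-- The coefficients of the polynomial `∑ a_i (s + τ)^i` in `τ`, of degree at least one. -/
def tay (a : Fin 5 → R) (s : R) : Fin 4 → R :=
  ![a 1 + 2 * a 2 * s + 3 * a 3 * s ^ 2 + 4 * a 4 * s ^ 3, a 2 + 3 * a 3 * s + 6 * a 4 * s ^ 2,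
    a 3 + 4 * a 4 * s, a 4]

/-- The squares of the products of the partial derivatives of the form with coordinates. -/
def ZA (c : Fin 5 → Fin 5 → R) (x y : Fin 2 → R) : (Fin 2 × Fin 2) ⊕ (Fin 2 × Fin 2) → R :=
  Sum.elim (fun k => bd (cx c y) x k.1 ^ 2 * x k.2 ^ 2) fun k => bd (cy c x) y k.1 ^ 2 * y k.2 ^ 2

end ring

/-- The curve of bidegree (4,4) is smooth. -/
def Smooth {K : Type} [Field K] (c : Fin 5 → Fin 5 → K) : Prop :=
  ∀ x y : Fin 2 → AlgebraicClosure K, x ≠ 0 → y ≠ 0 →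
    (∀ k, bd (cx (fun i j => algebraMap K (AlgebraicClosure K) (c i j)) y) x k = 0) →
    (∀ k, bd (cy (fun i j => algebraMap K (AlgebraicClosure K) (c i j)) x) y k = 0) → False

/-- The curve `w² = ∑ a_i s^i` has genus one, and `n` times the difference of its points `(s, w)` and
`(s, -w)`, `w ≠ 0`, is zero. -/
def Tor {K : Type} [Field K] (a : Fin 5 → K) (s w : K) (n : ℕ) : Prop :=
  w ≠ 0 ∧ w ^ 2 = bq a ![1, s] ∧ dc (a 0) (a 1) (a 2) (a 3) (a 4) ≠ 0 ∧
    TorP (tay a s 1) (rb w (tay a s 0) (tay a s 2) (tay a s 3))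
      (rc w (tay a s 0) (tay a s 1) (tay a s 2) (tay a s 3))
      (xs w (tay a s 0) (tay a s 1)) (ys w (tay a s 0) (tay a s 1) (tay a s 2)) n

/-- LOC: the local inequality for the partial derivatives. -/
def S_LOC : Prop :=
  ∀ (K : Type) [Field K] [CharZero K] (v : AbsoluteValue K ℝ) (A A' B : ℝ) (κ : ℕ), 1 ≤ A → 1 ≤ B →
    0 ≤ A' → 16 * A ^ 2 ≤ A' * v 3 → 137 * A ^ 3 ≤ A' * v 3 ^ 3 → v 2 ≤ 2 → v 3 ≤ 3 → LB v A' B κ →
    ∀ (a : Fin 5 → K) (m : K), m ≠ 0 → (∀ i, v (a i) ≤ A * v m ^ 4) → ∀ (s w : K) (n : ℕ), n ≠ 0 →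
      Tor a s w n → ∀ k, v 3 * v (bd a ![1, s] k) ^ 2 ≤
        (144 * A + 12 * B) * (n : ℝ) ^ κ * v (bq a ![1, s]) * max 1 (v s) ^ 2 * v m ^ 4

/-- LOG: the same at a good place, without constants. -/
def S_LOG : Prop :=
  ∀ (K : Type) [Field K] [CharZero K] (v : AbsoluteValue K ℝ), IsNonarchimedean v → v 2 = 1 →
    v 3 = 1 → LB v 1 1 0 → ∀ (a : Fin 5 → K) (m : K), m ≠ 0 → (∀ i, v (a i) ≤ v m ^ 4) →
    ∀ (s w : K) (n : ℕ), n ≠ 0 → Tor a s w n → ∀ k, v (bd a ![1, s] k) ^ 2 ≤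
      v (bq a ![1, s]) * max 1 (v s) ^ 2 * v m ^ 4

/-- GLO: the inequalities at all places of a number field. -/
def S_GLO : Prop :=
  ∀ (K : Type) [Field K] [NumberField K] (c : Fin 5 → Fin 5 → K),
    ∃ C : AbsoluteValue K ℝ → ℝ, (∀ v, 1 ≤ C v) ∧
      {v : AbsoluteValue K ℝ | v ∈ nonarchAbsVal (K := K) ∧ C v ≠ 1}.Finite ∧
      ∀ (s t w : K) (n : ℕ), n ≠ 0 → Tor (cx c ![1, t]) s w n → ∀ k,
        (∀ v ∈ archAbsVal (K := K), v (bd (cx c ![1, t]) ![1, s] k) ^ 2 ≤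
          C v * (n : ℝ) ^ 4 * v (F4 c ![1, s] ![1, t]) * max 1 (v s) ^ 2 * max 1 (v t) ^ 4) ∧
        ∀ v ∈ nonarchAbsVal (K := K), v (bd (cx c ![1, t]) ![1, s] k) ^ 2 ≤
          C v * v (F4 c ![1, s] ![1, t]) * max 1 (v s) ^ 2 * max 1 (v t) ^ 4

/-- ORD: the order of the torsion points in the family is less than any power of the height. -/
def S_ORD : Prop :=
  ∀ (K : Type) [Field K] [NumberField K] (c : Fin 5 → Fin 5 → K) (M : ℕ), ∃ C : ℝ, 0 < C ∧
    ∀ (s t w : K) (N : ℕ), N ≠ 0 → Tor (cx c ![1, t]) s w N →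
      ∃ n : ℕ, n ≠ 0 ∧ Tor (cx c ![1, t]) s w n ∧ (n : ℝ) ^ M ≤ C * mulHeight₁ t

/-! ### Heights -/

/-- PRO: the product of the local inequalities. -/
def S_PRO : Prop :=
  ∀ (K : Type) [Field K] [NumberField K] (C : AbsoluteValue K ℝ → ℝ), (∀ v, 1 ≤ C v) →
    {v : AbsoluteValue K ℝ | v ∈ nonarchAbsVal (K := K) ∧ C v ≠ 1}.Finite →
    ∃ D : ℝ, 0 < D ∧ ∀ (ι : Type) [Finite ι] [Nonempty ι] (z : ι → K) (u s t : K) (a b : ℕ) (N : ℝ),
      z ≠ 0 → u ≠ 0 → 1 ≤ N →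
      (∀ v ∈ archAbsVal (K := K), ∀ i, v (z i) ≤
        C v * N * v u * max 1 (v s) ^ a * max 1 (v t) ^ b) →
      (∀ v ∈ nonarchAbsVal (K := K), ∀ i, v (z i) ≤
        C v * v u * max 1 (v s) ^ a * max 1 (v t) ^ b) →
      mulHeight z ≤ D * N ^ totalWeight K * mulHeight₁ s ^ a * mulHeight₁ t ^ b

/-- NSH: a lower bound for the height of the partial derivatives, on all of `ℙ¹ × ℙ¹`. -/
def S_NSH : Prop :=
  ∀ (K : Type) [Field K] [NumberField K] (c : Fin 5 → Fin 5 → K), Smooth c →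
    ∃ D : ℝ, 0 < D ∧ ∀ s t : K, ZA c ![1, s] ![1, t] ≠ 0 ∧
      D * (mulHeight₁ s * mulHeight₁ t) ^ 8 ≤ mulHeight (ZA c ![1, s] ![1, t])

/-- The polynomial with the coefficients `a`. -/
noncomputable def pq {K : Type} [Field K] (a : Fin 5 → K) : Polynomial K :=
  ∑ i : Fin 5, Polynomial.C (a i) * Polynomial.X ^ (i : ℕ)

/-- The quartic form `g` does not divide the square of the quartic form `h`. -/
def ND {K : Type} [Field K] (g h : Fin 5 → K) : Prop :=
  ¬ pq g ∣ pq h ^ 2 ∨ 4 + (pq g).natDegree < 2 * (pq h).natDegree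

/-- BHT: a lower bound for the height on the line. -/
def S_BHT : Prop :=
  ∀ (K : Type) [Field K] [NumberField K] (g h : Fin 5 → K), ND g h →
    ∃ D : ℝ, 0 < D ∧ ∀ t : K, bq g ![1, t] ≠ 0 →
      D * mulHeight₁ t ^ 5 ≤
        mulHeight ![bq h ![1, t] ^ 2, bq g ![1, t], bq g ![1, t] * t ^ 4]

/-! ### The main theorems -/

/-- The rational point `(s, t, w)`, `w ≠ 0`, is torsion in the direction of `s` for some `n`. -/
def TorX {K : Type} [Field K] (c : Fin 5 → Fin 5 → K) (s t : K) : Prop :=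
  ∃ (w : K) (n : ℕ), n ≠ 0 ∧ Tor (cx c ![1, t]) s w n

/-- The same in the direction of `t`. -/
def TorY {K : Type} [Field K] (c : Fin 5 → Fin 5 → K) (s t : K) : Prop :=
  ∃ (w : K) (n : ℕ), n ≠ 0 ∧ Tor (cy c ![1, s]) t w n

/-- THA: only finitely many rational points are torsion in both directions. -/
def S_THA : Prop :=
  ∀ (K : Type) [Field K] [NumberField K] (c : Fin 5 → Fin 5 → K), Smooth c →
    {z : K × K | TorX c z.1 z.2 ∧ TorY c z.1 z.2}.Finite

/-- The coefficients of the derivative with respect to `s` on the line with the coordinate `s`. -/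
def gd {K : Type} [Field K] (c : Fin 5 → Fin 5 → K) (s : K) : Fin 5 → K :=
  fun j => bd (fun i => c i j) ![1, s] 1

/-- THB: on a line which is not special only finitely many rational points are torsion in the other
direction. -/
def S_THB : Prop :=
  ∀ (K : Type) [Field K] [NumberField K] (c : Fin 5 → Fin 5 → K) (s : K),
    ND (cy c ![1, s]) (gd c s) → {t : K | TorX c s t}.Finite

/-- SNG: if the branch curve is smooth then the lines which give singular curves are not special. -/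
def S_SNG : Prop :=
  ∀ (K : Type) [Field K] [CharZero K] (c : Fin 5 → Fin 5 → K), Smooth c → ∀ s : K,
    cy c ![1, s] ≠ 0 → dc (cy c ![1, s] 0) (cy c ![1, s] 1) (cy c ![1, s] 2) (cy c ![1, s] 3)
      (cy c ![1, s] 4) = 0 → ND (cy c ![1, s]) (gd c s)

/-- SPE: if the branch curve is smooth then only finitely many lines are special or give singular
curves, and no line lies in the branch curve. -/
def S_SPE : Prop :=
  ∀ (K : Type) [Field K] [CharZero K] (c : Fin 5 → Fin 5 → K), Smooth c →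
    (∀ s : K, cy c ![1, s] ≠ 0) ∧
    {s : K | dc (cy c ![1, s] 0) (cy c ![1, s] 1) (cy c ![1, s] 2) (cy c ![1, s] 3)
      (cy c ![1, s] 4) = 0 ∨ ¬ ND (cy c ![1, s]) (gd c s)}.Finite

end Pool.Agent.Q35.TT
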