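import Pool.Agent.Q35.TT.Stm

/-!
# Double covers `w² = F(x, y)` of `ℙ¹ × ℙ¹`, branched along smooth curves of bidegree (4,4):
Mazur's question and the semialgebraic form, statements (project TT, helper35)
-/

set_option autoImplicit false

open Pool.Agent.Y720.MZ MvPolynomial

namespace Pool.Agent.Q35.TT

section mazur

variable {K L : Type} [Field K] [NontriviallyNormedField L]

/-- The polynomials in `w, s, t` which vanish at the `K`-points of `w² = F(1, s; 1, t)` close to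
`x`. -/
def locA (σ : K →+* L) (c : Fin 5 → Fin 5 → K) (x : Fin 3 → L) : Set (MvPolynomial (Fin 3) K) :=
  {f | ∃ U ∈ nhds x, ∀ u : Fin 3 → K, u 0 ^ 2 = F4 c ![1, u 1] ![1, u 2] →
    (fun i => σ (u i)) ∈ U → eval u f = 0}

/-- The polynomials in `w, x₀, x₁, y₀, y₁` which vanish at all coordinate vectors of the `K`-points of
`w² = F(x, y)` close to `(w, x, y)`. -/
def locP (σ : K →+* L) (c : Fin 5 → Fin 5 → K) (w : L) (x y : Fin 2 → L) :
    Set (MvPolynomial (Option (Fin 2 ⊕ Fin 2)) K) :=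
  {f | ∃ U ∈ nhds (w, x, y), ∀ (W : K) (X Y : Fin 2 → K), X ≠ 0 → Y ≠ 0 → W ^ 2 = F4 c X Y →
    (∃ a b : L, a ≠ 0 ∧ b ≠ 0 ∧
      (a ^ 2 * b ^ 2 * σ W, (fun i => a * σ (X i)), fun i => b * σ (Y i)) ∈ U) →
    ∀ a b : K, eval (fun o => o.elim (a ^ 2 * b ^ 2 * W) (Sum.elim (a • X) (b • Y))) f = 0}

end mazur

/-- MZA: Mazur's question for the affine surfaces. -/
def S_MZA : Prop :=
  ∀ (K : Type) [Field K] [NumberField K] (c : Fin 5 → Fin 5 → K), Smooth c →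
    ∃ (E₁ E₂ : Set K) (T : Set (K × K)), E₁.Finite ∧ E₂.Finite ∧ T.Finite ∧
      ∀ (L : Type) [NontriviallyNormedField L] [CompleteSpace L] (σ : K →+* L), DenseRange σ →
        -- (1) the local closures at the rational points
        (∀ u : Fin 3 → K, u 0 ≠ 0 → u 0 ^ 2 = F4 c ![1, u 1] ![1, u 2] → u 1 ∉ E₁ → u 2 ∉ E₂ →
          (u 1, u 2) ∉ T → ∀ f ∈ locA σ c (fun i => σ (u i)), ∀ u' : Fin 3 → K,
            u' 0 ^ 2 = F4 c ![1, u' 1] ![1, u' 2] → eval u' f = 0) ∧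
        -- (2) off the branch curve
        {J | ∃ x : Fin 3 → L, x 0 ≠ 0 ∧
          x 0 ^ 2 = F4 (fun i j => σ (c i j)) ![1, x 1] ![1, x 2] ∧ J = locA σ c x}.Finite ∧
        -- (3) everywhere, if the branch curve has finitely many rational points
        ({z : K × K | F4 c ![1, z.1] ![1, z.2] = 0}.Finite →
          {J | ∃ x : Fin 3 → L, x 0 ^ 2 = F4 (fun i j => σ (c i j)) ![1, x 1] ![1, x 2] ∧
            J = locA σ c x}.Finite)

/-- MZP: Mazur's question for the projective surfaces. -/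
def S_MZP : Prop :=
  ∀ (K : Type) [Field K] [NumberField K] (c : Fin 5 → Fin 5 → K), Smooth c →
    ∃ (E₁ E₂ : Set (Fin 2 → K)) (T : Set ((Fin 2 → K) × (Fin 2 → K))),
      E₁.Finite ∧ E₂.Finite ∧ T.Finite ∧
      ∀ (L : Type) [NontriviallyNormedField L] [CompleteSpace L] (σ : K →+* L), DenseRange σ →
        -- (1) the local closures at the rational points
        (∀ (W : K) (X Y : Fin 2 → K), X ≠ 0 → Y ≠ 0 → W ≠ 0 → W ^ 2 = F4 c X Y →
          (∀ e ∈ E₁, ∀ a : K, X ≠ a • e) → (∀ e ∈ E₂, ∀ a : K, Y ≠ a • e) →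
          (∀ e ∈ T, ∀ a b : K, X ≠ a • e.1 ∨ Y ≠ b • e.2) →
          ∀ f ∈ locP σ c (σ W) (fun i => σ (X i)) (fun i => σ (Y i)),
            ∀ (W' : K) (X' Y' : Fin 2 → K), W' ^ 2 = F4 c X' Y' →
              eval (fun o => o.elim W' (Sum.elim X' Y')) f = 0) ∧
        -- (2) off the branch curve
        {J | ∃ (w : L) (x y : Fin 2 → L), w ≠ 0 ∧ x ≠ 0 ∧ y ≠ 0 ∧
          w ^ 2 = F4 (fun i j => σ (c i j)) x y ∧ J = locP σ c w x y}.Finite ∧
        -- (3) everywhere, if the branch curve has finitely many rational points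
        ((∃ B : Finset ((Fin 2 → K) × (Fin 2 → K)), ∀ X Y : Fin 2 → K, X ≠ 0 → Y ≠ 0 →
            F4 c X Y = 0 → ∃ e ∈ B, ∃ a b : K, X = a • e.1 ∧ Y = b • e.2) →
          {J | ∃ (w : L) (x y : Fin 2 → L), x ≠ 0 ∧ y ≠ 0 ∧
            w ^ 2 = F4 (fun i j => σ (c i j)) x y ∧ J = locP σ c w x y}.Finite)

/-- Semialgebraic sets defined over `ℚ`: the finite unions of sets
`{p = 0, q₁ > 0, …, q_k > 0}`, where `p` and the `qᵢ` are polynomials with rational
coefficients. -/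
def Semialg {n : ℕ} (S : Set (Fin n → ℝ)) : Prop :=
  ∃ (m : ℕ) (P : Fin m → MvPolynomial (Fin n) ℚ) (G : Fin m → Finset (MvPolynomial (Fin n) ℚ)),
    S = {x : Fin n → ℝ | ∃ j : Fin m, (aeval x (P j) : ℝ) = 0 ∧
      ∀ g ∈ G j, (0 : ℝ) < aeval x g}

/-- SAL: the real closures are semialgebraic. -/
def S_SAL : Prop :=
  ∀ c : Fin 5 → Fin 5 → ℚ, Smooth c →
    Semialg (closure {x : Fin 3 → ℝ | ∃ u : Fin 3 → ℚ, u 0 ≠ 0 ∧
      u 0 ^ 2 = F4 c ![1, u 1] ![1, u 2] ∧ x = fun i => (u i : ℝ)}) ∧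
    ({z : ℚ × ℚ | F4 c ![1, z.1] ![1, z.2] = 0}.Finite →
      Semialg (closure {x : Fin 3 → ℝ | ∃ u : Fin 3 → ℚ,
        u 0 ^ 2 = F4 c ![1, u 1] ![1, u 2] ∧ x = fun i => (u i : ℝ)}))

end Pool.Agent.Q35.TT
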