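import Pool.Agent.Q35.TT.Stm3
import Pool.Agent.Results.MP_ed3816_nt.OpenAwayFromTorsion

/-!
# K3 surfaces: the closure of the rational points is open at almost all rational points, statement
(project TT, helper35)
-/

set_option autoImplicit false

open Pool.Agent.Y720.MZ MvPolynomial

namespace Pool.Agent.Q35.TT

open Pool.Agent.Results.MP_ed3816_nt.OpenAwayFromTorsion in
/-- OPN: for all quadratic twists of a K3 double cover of `ℙ¹ × ℙ¹` and all finite nonempty sets of
`p`-adic places of degree one over different `p`, with or without a real place, the closure of the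
`K`-points is open at the `K`-points off the branch curve, off a finite set and off finitely many
lines. -/
def S_OPN : Prop :=
  ∀ (K : Type) [Field K] [NumberField K] (f : MvPolynomial (Fin 2) K), (∀ j, f.degreeOf j ≤ 4) →
    SmoothN f → ∃ (T : Set (Fin 2 → K)) (E : Fin 2 → Set K), T.Finite ∧ (∀ j, (E j).Finite) ∧
      ∀ e : K, e ≠ 0 → ∀ (z : Fin 2 → K) (w : K), w ≠ 0 → w ^ 2 = eval z (C e * f) → z ∉ T →
        (∀ j, z j ∉ E j) → ∀ (ι : Type) [Finite ι] [Nonempty ι] (p : ι → ℕ)
          [∀ v, Fact (p v).Prime], Function.Injective p → ∀ σ : ∀ v, K →+* ℚ_[p v],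
            OpenAt (C e * f) σ (fun v => image (σ v) (z, w)) ∧ ∀ τ : K →+* ℝ,
              OpenAtReal (C e * f) σ τ (image τ (z, w), fun v => image (σ v) (z, w))

end Pool.Agent.Q35.TT
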