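import Pool.Agent.Q35.TT.Stm2

/-!
# K3 double covers `w² = F(x, y)`: the closures of the sets of values of rational functions on products
are semialgebraic, statement (project TT, helper35)
-/

set_option autoImplicit false

open Pool.Agent.Y720.MZ MvPolynomial

namespace Pool.Agent.Q35.TT

/-- SAW: the closure of the set of the values of finitely many rational functions at the rational
points of products of such surfaces and an affine space is semialgebraic. -/
def S_SAW : Prop :=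
  ∀ (J κ : Type) [Finite J] [Finite κ] (c : J → Fin 5 → Fin 5 → ℚ), (∀ j, Smooth (c j)) →
    ∀ (m : ℕ) (p : Fin m → MvPolynomial ((J × Fin 3) ⊕ κ) ℚ) (q : MvPolynomial ((J × Fin 3) ⊕ κ) ℚ),
      Semialg (closure {y : Fin m → ℝ | ∃ (x : J → Fin 3 → ℚ) (u : κ → ℚ),
        (∀ j, x j 0 ≠ 0 ∧ x j 0 ^ 2 = F4 (c j) ![1, x j 1] ![1, x j 2]) ∧
        eval (Sum.elim (fun a => x a.1 a.2) u) q ≠ 0 ∧
        ∀ k, y k = ((eval (Sum.elim (fun a => x a.1 a.2) u) (p k) /
          eval (Sum.elim (fun a => x a.1 a.2) u) q : ℚ) : ℝ)}) ∧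
      ((∀ j, {z : ℚ × ℚ | F4 (c j) ![1, z.1] ![1, z.2] = 0}.Finite) →
        Semialg (closure {y : Fin m → ℝ | ∃ (x : J → Fin 3 → ℚ) (u : κ → ℚ),
          (∀ j, x j 0 ^ 2 = F4 (c j) ![1, x j 1] ![1, x j 2]) ∧
          eval (Sum.elim (fun a => x a.1 a.2) u) q ≠ 0 ∧
          ∀ k, y k = ((eval (Sum.elim (fun a => x a.1 a.2) u) (p k) /
            eval (Sum.elim (fun a => x a.1 a.2) u) q : ℚ) : ℝ)}))

end Pool.Agent.Q35.TT
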