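import Pool.Agent.Q35.TT.Stm2

/-!
# K3 double covers `w² = F(x, y)`: connected sets of real points off the branch curve, statement
(project TT, helper35)
-/

set_option autoImplicit false

open Pool.Agent.Y720.MZ MvPolynomial

namespace Pool.Agent.Q35.TT

/-- SAC: a connected set of real points with `w ≠ 0` is contained in the closure of the rational points
or contains only rational points of a finite set and of finitely many lines. -/
def S_SAC : Prop :=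
  ∀ c : Fin 5 → Fin 5 → ℚ, Smooth c → ∃ (E₁ E₂ : Set ℚ) (T : Set (ℚ × ℚ)), E₁.Finite ∧ E₂.Finite ∧
    T.Finite ∧ ∀ U : Set (Fin 3 → ℝ), IsPreconnected U →
      (∀ x ∈ U, x 0 ≠ 0 ∧ x 0 ^ 2 = F4 (fun i j => (c i j : ℝ)) ![1, x 1] ![1, x 2]) →
      U ⊆ closure {x : Fin 3 → ℝ | ∃ u : Fin 3 → ℚ,
        u 0 ^ 2 = F4 c ![1, u 1] ![1, u 2] ∧ x = fun i => (u i : ℝ)} ∨
      ∀ u : Fin 3 → ℚ, (fun i => (u i : ℝ)) ∈ U → u 1 ∈ E₁ ∨ u 2 ∈ E₂ ∨ (u 1, u 2) ∈ T

end Pool.Agent.Q35.TT
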