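import Pool.Agent.Q53.TT.ARC
import Pool.Agent.Q53.TT.NAR
import Pool.Agent.Q193.TT.Glb
import Pool.Agent.Q193.TT.Pla
import Pool.Agent.Q137.TT.Plc
import Pool.Agent.Q68.TT.Sel
import Pool.Agent.Q224.TT.Loc
import Pool.Agent.Q237.TT.GLO
import Pool.Agent.Q237.TT.ORD
import Pool.Agent.Q237.TT.PRO
import Pool.Agent.Q275.TT.Nsh
import Pool.Agent.Q164.TT.BHT
import Pool.Agent.Q208.TT.THA
import Pool.Agent.Q151.TT.Thb
import Pool.Agent.Q151.TT.Sng
import Pool.Agent.Q149.TT.Spe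
import Pool.Agent.Q68.TT.Sal
import Pool.Agent.Q121.TT.Trn

/-!
# Project TT: the theorems for surfaces over `ℚ` and number fields, assembled (helper35)
-/

set_option autoImplicit false

namespace Pool.Agent.Q35.TT

theorem glo2 : S_GLO :=
  Pool.Agent.Q237.TT.glo Pool.Agent.Q53.TT.ARC.arc (Pool.Agent.Q53.TT.NAR.nar Pool.Agent.Q121.TT.trn)
    Pool.Agent.Q193.TT.glb Pool.Agent.Q193.TT.pla (Pool.Agent.Q224.TT.Loc.loc Pool.Agent.Q121.TT.trn)
    (Pool.Agent.Q224.TT.Loc.log_ Pool.Agent.Q121.TT.trn)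

theorem ord2 : S_ORD :=
  Pool.Agent.Q237.TT.ord Pool.Agent.Q121.TT.trn Pool.Agent.Q193.TT.glb
    (Pool.Agent.Q68.TT.sel (Pool.Agent.Q137.TT.plc Pool.Agent.Q193.TT.pla))

/-- only finitely many rational points are torsion in both directions -/
theorem tha2 : S_THA :=
  Pool.Agent.Q208.TT.tha glo2 ord2 Pool.Agent.Q237.TT.pro Pool.Agent.Q275.TT.nsh

theorem thb2 : S_THB :=
  Pool.Agent.Q151.TT.B.thb glo2 ord2 Pool.Agent.Q237.TT.pro Pool.Agent.Q164.TT.bht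

theorem saw2 : S_SAW :=
  Pool.Agent.Q68.TT.Sal.saw tha2 thb2 Pool.Agent.Q151.TT.sng Pool.Agent.Q149.TT.spe

theorem sac2 : S_SAC :=
  Pool.Agent.Q68.TT.Sal.sac tha2 thb2 Pool.Agent.Q151.TT.sng Pool.Agent.Q149.TT.spe

end Pool.Agent.Q35.TT
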